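import Pool.Agent.TH125.Clo.Field

/-!
# Closures of Galois stable groups of points of `R_{K/ℚ}(G_m)` for abelian `K`

Let `K / ℚ` be a finite Galois extension with abelian Galois group and `A = R_{K/ℚ}(G_m)`, so that
`A(ℚ) = Kˣ`. For every subgroup `L` of `Kˣ` which is stable under the Galois group, the identity
component of the closure of `L` in `A(ℝ)` is the identity component of `B(ℝ)` for an algebraic
subgroup `B` of `A` defined over `ℚ`.

The proof: the complexification `U` of the Lie algebra of the closure is stable under the Galois
group, which acts on it through diagonalisable operators (characters). The annihilator of `U` is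
spanned by eigenvectors, whose coordinates are algebraic numbers, so by Baker's theorem (starting
files) every vector of `U` whose exponential is a point with algebraic coordinates lies in the span
of the rational vectors of `U`. Such vectors are dense in the Lie algebra by the closed subgroup
theorem, hence `U` is rational.
-/

set_option autoImplicit false

namespace Pool.Agent.Results.MP_7de521_nt.GaloisStableGroups

open Pool.Agent.TH125.Clo

/-- **Main result.** -/
theorem result (K : Type) [Field K] [NumberField K] [IsGalois ℚ K]
    (hK : ∀ g h : K ≃ₐ[ℚ] K, g * h = h * g) (L : Subgroup Kˣ) (hL : GaloisStable K L) :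
    ∃ M : AddSubgroup ((K →+* ℂ) → ℤ), DefinedOverQ K M ∧
      connectedComponentIn (closure (image K L : Set (ComplexPoints K))) 1 =
        connectedComponentIn (realPoints K ∩ kernel K M) 1 :=
  main hK L hL

end Pool.Agent.Results.MP_7de521_nt.GaloisStableGroups
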